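import Pool.Agent.Helper19.HV.Curve
import Pool.Agent.Helper91.PL.A1

/-!
Project HV, module EXF: five-term functions on `F(t)`, zero on constants, are symbols.
-/

set_option autoImplicit false

open Polynomial

namespace Pool.Agent.Helper19.HV

noncomputable section

open PL

private theorem exf_sub {G N : Type} [Field G] [AddCommGroup N] [Module ℚ N] {D D' : G → N}
    (h : FT5 D) (h' : FT5 D') : FT5 fun x => D x - D' x where
  zero := by rw [h.zero, h'.zero, sub_zero]
  one_sub := fun x => by rw [h.one_sub, h'.one_sub]; abel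
  inv := fun x => by rw [h.inv, h'.inv]; abel
  five := fun x y h1 h2 h3 h4 h5 => by
    rw [← h.five x y h1 h2 h3 h4 h5, ← h'.five x y h1 h2 h3 h4 h5]
    abel

private theorem exf_neg {N : Type} [AddCommGroup N] [Module ℚ N] {x : N} (h : x = -x) : x = 0 := by
  have h1 : (2 : ℚ) • x = 0 := by
    rw [two_smul]
    nth_rewrite 1 [h]
    exact neg_add_cancel x
  have h2 : x = (2 : ℚ)⁻¹ • ((2 : ℚ) • x) := by
    rw [smul_smul, inv_mul_cancel₀ (by norm_num : (2 : ℚ) ≠ 0), one_smul]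
  rw [h2, h1, smul_zero]

/-- the kernel -/
private def exfK {F N : Type} [Field F] [AddCommGroup N] (ψ : RatFunc F → N) (a b : F) : N :=
  open Classical in
  if a = b then 0 else ψ ((RatFunc.X - RatFunc.C a) / RatFunc.C (b - a))

private theorem exf_one_sub {F : Type} [Field F] (a b : F) (hab : a ≠ b) :
    1 - (RatFunc.X - RatFunc.C a) / RatFunc.C (b - a) =
      (RatFunc.X - RatFunc.C b) / (RatFunc.C (a - b) : RatFunc F) := by
  have h1 : (RatFunc.C (b - a) : RatFunc F) ≠ 0 := by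
    rw [Ne, map_eq_zero]
    exact sub_ne_zero.mpr (Ne.symm hab)
  have h2 : (RatFunc.C (a - b) : RatFunc F) = -RatFunc.C (b - a) := by
    rw [← map_neg]; congr 1; ring
  rw [h2, div_neg, eq_neg_iff_add_eq_zero]
  have h3 : (RatFunc.C (b - a) : RatFunc F) = RatFunc.C b - RatFunc.C a := map_sub _ _ _
  field_simp
  rw [h3]
  ring

private theorem exfK_anti {F N : Type} [Field F] [AddCommGroup N] [Module ℚ N]
    (ψ : RatFunc F → N) (h : FT5 ψ) (a b : F) : exfK ψ b a = - exfK ψ a b := by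
  unfold exfK
  by_cases hab : a = b
  · subst hab; simp
  · rw [if_neg hab, if_neg (Ne.symm hab), ← exf_one_sub a b hab, h.one_sub]

/-- the bilinear form on divisors -/
private def exfB {F N : Type} [Field F] [AddCommGroup N] [Module ℚ N] (ψ : RatFunc F → N) :
    (F →₀ ℚ) →ₗ[ℚ] (F →₀ ℚ) →ₗ[ℚ] N :=
  Finsupp.linearCombination ℚ (fun b => Finsupp.linearCombination ℚ (fun a => exfK ψ a b))

private theorem exfB_single {F N : Type} [Field F] [AddCommGroup N] [Module ℚ N]
    (ψ : RatFunc F → N) (a b : F) :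
    exfB ψ (Finsupp.single b 1) (Finsupp.single a 1) = exfK ψ a b := by
  unfold exfB
  rw [Finsupp.linearCombination_single, one_smul, Finsupp.linearCombination_single, one_smul]

private theorem exfB_anti {F N : Type} [Field F] [AddCommGroup N] [Module ℚ N]
    (ψ : RatFunc F → N) (h : FT5 ψ) (p q : F →₀ ℚ) : exfB ψ p q = - exfB ψ q p := by
  have key : exfB ψ = -(exfB ψ).flip := by
    refine Finsupp.lhom_ext' fun b => LinearMap.ext_ring ?_
    refine Finsupp.lhom_ext' fun a => LinearMap.ext_ring ?_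
    change exfB ψ (Finsupp.single b 1) (Finsupp.single a 1) =
      -(exfB ψ (Finsupp.single a 1) (Finsupp.single b 1))
    rw [exfB_single, exfB_single, exfK_anti ψ h b a]
  have h2 := congrArg (fun L : (F →₀ ℚ) →ₗ[ℚ] (F →₀ ℚ) →ₗ[ℚ] N => L p q) key
  exact h2

theorem mEXF
    (hBET : ∀ {G N : Type} [Field G] [AddCommGroup N] [Module ℚ N]
      (A : V G →ₗ[ℚ] V G →ₗ[ℚ] N), Al2 A → FT5 fun x : G => A (lg (1 - x)) (lg x))
    (hDSR : ∀ {F N : Type} [Field F] [IsAlgClosed F] [AddCommGroup N] [Module ℚ N]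
      (Δ : RatFunc F → N), FT5 Δ → (∀ c : F, Δ (RatFunc.C c) = 0) →
      (∀ a b : F, a ≠ b → Δ ((RatFunc.X - RatFunc.C a) / RatFunc.C (b - a)) = 0) →
      ∀ x, Δ x = 0)
    {F N : Type} [Field F] [IsAlgClosed F] [AddCommGroup N] [Module ℚ N]
    {cV : V F →ₗ[ℚ] V (RatFunc F)} {lc : V (RatFunc F) →ₗ[ℚ] V F}
    {od : V (RatFunc F) →ₗ[ℚ] (F →₀ ℚ)} (hs : Spl cV lc od)
    (ψ : RatFunc F → N) (h : FT5 ψ) (hc : ∀ c : F, ψ (RatFunc.C c) = 0) :
    ∃ A : V (RatFunc F) →ₗ[ℚ] V (RatFunc F) →ₗ[ℚ] N, Al2 A ∧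
      (∀ (c : F) v, A (lg (RatFunc.C c)) v = 0) ∧ ∀ x, ψ x = A (lg (1 - x)) (lg x) := by
  -- the form
  let A : V (RatFunc F) →ₗ[ℚ] V (RatFunc F) →ₗ[ℚ] N := (exfB ψ).compl₁₂ od od
  have hA : ∀ v w, A v w = exfB ψ (od v) (od w) := fun v w => rfl
  have hAl : Al2 A := by
    intro v
    rw [hA]
    exact exf_neg (exfB_anti ψ h _ _)
  have hAc : ∀ (c : F) v, A (lg (RatFunc.C c)) v = 0 := by
    intro c v
    rw [hA, hs.od_C, map_zero, LinearMap.zero_apply]
  refine ⟨A, hAl, hAc, ?_⟩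
  have hX : ∀ a : F, (RatFunc.X - RatFunc.C a : RatFunc F) ≠ 0 := by
    intro a h0
    have h1 := hs.od_E a
    unfold E at h1
    rw [h0, lg_zero, map_zero] at h1
    have h2 := congrArg (fun f : F →₀ ℚ => f a) h1
    simp at h2
  have hod : ∀ a b : F, a ≠ b → od (lg ((RatFunc.X - RatFunc.C a) / RatFunc.C (b - a))) =
      Finsupp.single a 1 := by
    intro a b hab
    have h1 : (RatFunc.C (b - a) : RatFunc F) ≠ 0 := by
      rw [Ne, map_eq_zero]
      exact sub_ne_zero.mpr (Ne.symm hab)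
    rw [div_eq_mul_inv, lg_mul (hX a) (inv_ne_zero h1), lg_inv, map_add, map_neg, hs.od_C,
      neg_zero, add_zero]
    exact hs.od_E a
  have hΔ : FT5 fun x : RatFunc F => ψ x - A (lg (1 - x)) (lg x) := exf_sub h (hBET A hAl)
  have h0 := hDSR (fun x : RatFunc F => ψ x - A (lg (1 - x)) (lg x)) hΔ
    (fun c => by
      have e : (1 : RatFunc F) - RatFunc.C c = RatFunc.C (1 - c) := by
        rw [map_sub, map_one]
      change ψ (RatFunc.C c) - A (lg (1 - RatFunc.C c)) (lg (RatFunc.C c)) = 0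
      rw [hc c, e, hAc, sub_zero])
    (fun a b hab => by
      rw [hA, exf_one_sub a b hab, hod a b hab, hod b a (Ne.symm hab), exfB_single]
      unfold exfK
      rw [if_neg hab, sub_self])
  intro x
  exact sub_eq_zero.mp (h0 x)

end

end Pool.Agent.Helper19.HV
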